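import Pool.Agent.Helper65.RP.Defs2
import Pool.Agent.Helper13.RP.Step

/-!
# Uniform contact order at a fixed point at infinity of small multiplicity
-/

set_option autoImplicit false

namespace Pool.Agent.Helper57.RP

open MvPolynomial Filter Topology
open Pool.Agent.Helper65.RP
open Pool.Agent.Helper13.RP (GeOrd.congr GeOrd.of_zero GeOrd.zero GeOrd.neg GeOrd.mul GeOrd.mono
  GeOrd.add GeOrd.sub GeOrd.sum GeOrd.cst GeOrd.algMap GeOrd.one GeOrd.smul GeOrd.mul_left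
  GeOrd.mul_right GeOrd.scale aeval_ge Phi Phi_ge Phi_zero Trans trans_of bdd_of)

/-! ### Algebra -/

section alg
variable {L : Type} [Field L] {N : ℕ}

theorem sub_eval_mem (q : Fin N → L) (p : MvPolynomial (Fin N) L) :
    p - C (eval q p) ∈ ptIdeal q := by
  induction p using MvPolynomial.induction_on with
  | C a => rw [eval_C, sub_self]; exact zero_mem _
  | add p r hp hr =>
      have h : p + r - C (eval q (p + r)) = (p - C (eval q p)) + (r - C (eval q r)) := by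
        rw [map_add, map_add]
        ring
      rw [h]
      exact add_mem hp hr
  | mul_X p i hp =>
      have h : p * X i - C (eval q (p * X i)) =
          X i * (p - C (eval q p)) + C (eval q p) * (X i - C (q i)) := by
        rw [map_mul, eval_X, map_mul]
        ring
      rw [h]
      refine add_mem (Ideal.mul_mem_left _ _ hp) (Ideal.mul_mem_left _ _ ?_)
      exact Ideal.subset_span ⟨i, rfl⟩

theorem kappa_finite (q : Fin N → L) (n : ℕ) (J : Ideal (MvPolynomial (Fin N) L)) :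
    FiniteDimensional L (MvPolynomial (Fin N) L ⧸ (J ⊔ ptIdeal q ^ n)) := by
  rcases Nat.eq_zero_or_pos n with hn | hn
  · subst hn
    rw [pow_zero, Ideal.one_eq_top, sup_top_eq]
    infer_instance
  · have hle : J ⊔ ptIdeal q ^ n ≤ J ⊔ ptIdeal q :=
      sup_le_sup_left (Ideal.pow_le_self (by omega)) J
    have hfin : Module.Finite L (MvPolynomial (Fin N) L ⧸ (J ⊔ ptIdeal q)) := by
      refine Module.Finite.of_surjective
        (Algebra.linearMap L (MvPolynomial (Fin N) L ⧸ (J ⊔ ptIdeal q))) ?_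
      intro x
      obtain ⟨p, rfl⟩ := Ideal.Quotient.mk_surjective x
      refine ⟨eval q p, ?_⟩
      rw [Algebra.linearMap_apply]
      have h1 : algebraMap L (MvPolynomial (Fin N) L ⧸ (J ⊔ ptIdeal q)) (eval q p) =
          Ideal.Quotient.mk (J ⊔ ptIdeal q) (C (eval q p)) := rfl
      rw [h1]
      refine Ideal.Quotient.eq.2 ?_
      have h2 := sub_eval_mem q p
      have h3 : C (eval q p) - p = -(p - C (eval q p)) := by ring
      rw [h3]
      exact neg_mem ((le_sup_right : ptIdeal q ≤ J ⊔ ptIdeal q) h2)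
    refine Module.finite_of_surjective_of_ker_le_nilradical
      (Ideal.Quotient.factorₐ L hle) (Ideal.Quotient.factor_surjective hle) ?_
      (IsNoetherian.noetherian _)
    intro x hx
    obtain ⟨p, rfl⟩ := Ideal.Quotient.mk_surjective x
    have h1 : p ∈ J ⊔ ptIdeal q := by
      have h2 : Ideal.Quotient.mk (J ⊔ ptIdeal q) p = 0 := hx
      exact Ideal.Quotient.eq_zero_iff_mem.1 h2
    rw [mem_nilradical]
    refine ⟨n, ?_⟩
    rw [← map_pow]
    refine Ideal.Quotient.eq_zero_iff_mem.2 ?_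
    obtain ⟨a, ha, b, hb, hab⟩ := Submodule.mem_sup.1 h1
    have h3 : p ^ n = (p ^ n - b ^ n) + b ^ n := by ring
    rw [h3]
    refine add_mem ((le_sup_left : J ≤ J ⊔ ptIdeal q ^ n) ?_)
      ((le_sup_right : ptIdeal q ^ n ≤ J ⊔ ptIdeal q ^ n) (Ideal.pow_mem_pow hb n))
    obtain ⟨r, hr⟩ := sub_dvd_pow_sub_pow p b n
    rw [hr]
    have h4 : p - b = a := by rw [← hab]; ring
    rw [h4]
    exact Ideal.mul_mem_right _ _ ha

theorem finrank_quot_lt {R : Type} [CommRing R] [Algebra L R] {I I' : Ideal R} (h : I ≤ I')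
    (hne : I ≠ I') [FiniteDimensional L (R ⧸ I)] :
    Module.finrank L (R ⧸ I') < Module.finrank L (R ⧸ I) := by
  set f : (R ⧸ I) →ₗ[L] (R ⧸ I') := (Ideal.Quotient.factorₐ L h).toLinearMap with hf
  have hsurj : Function.Surjective f := Ideal.Quotient.factor_surjective h
  have h1 := LinearMap.finrank_range_add_finrank_ker f
  have h2 : LinearMap.range f = ⊤ := LinearMap.range_eq_top.2 hsurj
  rw [h2, finrank_top] at h1
  have h3 : LinearMap.ker f ≠ ⊥ := by
    intro h4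
    apply hne
    refine le_antisymm h ?_
    intro x hx
    have h5 : Ideal.Quotient.mk I x ∈ LinearMap.ker f := by
      rw [LinearMap.mem_ker]
      have h6 : f (Ideal.Quotient.mk I x) = Ideal.Quotient.mk I' x := rfl
      rw [h6]
      exact Ideal.Quotient.eq_zero_iff_mem.2 hx
    rw [h4, Submodule.mem_bot] at h5
    exact Ideal.Quotient.eq_zero_iff_mem.1 h5
  have h4 : 0 < Module.finrank L (LinearMap.ker f) := by
    rw [Nat.pos_iff_ne_zero]
    intro h5
    exact h3 (Submodule.finrank_eq_zero.1 h5)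
  omega

theorem kappa_chain (q : Fin N → L) (J : Ideal (MvPolynomial (Fin N) L)) {ν : ℕ}
    (h : Module.finrank L (MvPolynomial (Fin N) L ⧸ (J ⊔ ptIdeal q ^ (ν + 1))) ≤ ν) :
    ptIdeal q ^ ν ≤ J ⊔ ptIdeal q ^ (ν + 1) := by
  have hle : ∀ i, J ⊔ ptIdeal q ^ (i + 1) ≤ J ⊔ ptIdeal q ^ i := fun i =>
    sup_le_sup_left (Ideal.pow_le_pow_right (Nat.le_succ i)) J
  obtain ⟨i, hi, heq⟩ : ∃ i, i ≤ ν ∧ J ⊔ ptIdeal q ^ (i + 1) = J ⊔ ptIdeal q ^ i := by
    by_contra hcon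
    push Not at hcon
    have hstep : ∀ i, i ≤ ν + 1 →
        i ≤ Module.finrank L (MvPolynomial (Fin N) L ⧸ (J ⊔ ptIdeal q ^ i)) := by
      intro i
      induction i with
      | zero => intro _; exact Nat.zero_le _
      | succ i ih =>
          intro hi
          have h1 := ih (by omega)
          have hfd := kappa_finite q (i + 1) J
          have h2 := finrank_quot_lt (L := L) (hle i) (hcon i (by omega))
          omega
    have := hstep (ν + 1) le_rfl
    omega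
  have h1 : ptIdeal q ^ i ≤ J ⊔ ptIdeal q ^ (i + 1) := by
    rw [heq]
    exact le_sup_right
  have h2 : ptIdeal q ^ ν = ptIdeal q ^ i * ptIdeal q ^ (ν - i) := by
    rw [← pow_add]
    congr 1
    omega
  rw [h2]
  refine (Ideal.mul_mono_left h1).trans ?_
  rw [Ideal.sup_mul]
  refine sup_le_sup Ideal.mul_le_left (le_of_eq ?_)
  rw [← pow_add]
  congr 1
  omega

end alg

/-! ### Analysis -/

section an
variable {L Ω : Type} [Field L] [NormedField Ω] [Algebra L Ω] {N : ℕ}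
  {𝒰 : Ultrafilter ℕ} {s : ℕ → ℝ} {α β : ℝ}

theorem geOrd_inv_top {s : ℕ → ℝ} {T : ℕ → Ω} (hs : Tendsto s (𝒰 : Filter ℕ) atTop)
    (hT : HasOrd 𝒰 s T (-1)) : GeOrd 𝒰 s (fun n => (T n)⁻¹) 1 := by
  intro ε hε
  have h1 := hT.2.eventually (gt_mem_nhds (show (-1 : ℝ) < -1 + ε by linarith))
  filter_upwards [h1, hT.1, hs.eventually_gt_atTop 0] with n h2 h3 h4
  rw [div_lt_iff₀ h4] at h2
  have h5 : 0 < ‖T n‖ := norm_pos_iff.mpr h3
  rw [norm_inv, ← Real.exp_log (inv_pos.mpr h5), Real.log_inv]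
  refine Real.exp_le_exp.mpr ?_
  linarith

theorem geOrd_root {u : ℕ → Ω} {ν : ℕ} (hν : 1 ≤ ν) (h : GeOrd 𝒰 s (u ^ ν) β) :
    GeOrd 𝒰 s u (β / ν) := by
  intro ε hε
  have hν' : (0 : ℝ) < ν := by exact_mod_cast hν
  filter_upwards [h (ν * ε) (by positivity)] with n h1
  rw [Pi.pow_apply, norm_pow] at h1
  refine le_of_pow_le_pow_left₀ (by omega : ν ≠ 0) (Real.exp_pos _).le (h1.trans (le_of_eq ?_))
  rw [← Real.exp_nat_mul]
  congr 1
  field_simp

/-- The ideal of the polynomials whose values have order at least `α`. -/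
noncomputable def geIdeal (hs : Tendsto s (𝒰 : Filter ℕ) atTop) {x : Fin N → ℕ → Ω}
    (hx : ∀ i, GeOrd 𝒰 s (x i) 0) (α : ℝ) : Ideal (MvPolynomial (Fin N) L) where
  carrier := {p | GeOrd 𝒰 s (aeval x p) α}
  add_mem' := by
    intro a b ha hb
    rw [Set.mem_ofPred_eq, map_add]
    exact GeOrd.add hs ha hb
  zero_mem' := by
    rw [Set.mem_ofPred_eq, map_zero]
    exact GeOrd.zero
  smul_mem' := by
    intro c a ha
    rw [Set.mem_ofPred_eq, smul_eq_mul, map_mul]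
    exact GeOrd.mul_left (aeval_ge hs hx c) ha

theorem mem_geIdeal {hs : Tendsto s (𝒰 : Filter ℕ) atTop} {x : Fin N → ℕ → Ω}
    {hx : ∀ i, GeOrd 𝒰 s (x i) 0} {p : MvPolynomial (Fin N) L} :
    p ∈ geIdeal (L := L) hs hx α ↔ GeOrd 𝒰 s (aeval x p) α := Iff.rfl

theorem pow_le_geIdeal (hs : Tendsto s (𝒰 : Filter ℕ) atTop) {x : Fin N → ℕ → Ω}
    (hx : ∀ i, GeOrd 𝒰 s (x i) 0) {q : Fin N → L}
    (h : ∀ i, GeOrd 𝒰 s (x i - algebraMap L (ℕ → Ω) (q i)) α) (k : ℕ) :
    ptIdeal q ^ k ≤ geIdeal (L := L) hs hx (k * α) := by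
  have h1 : ptIdeal q ≤ geIdeal (L := L) hs hx α := by
    refine Ideal.span_le.2 ?_
    rintro _ ⟨i, rfl⟩
    rw [SetLike.mem_coe, mem_geIdeal, map_sub, aeval_X, aeval_C]
    exact h i
  induction k with
  | zero =>
      intro p _
      rw [mem_geIdeal, Nat.cast_zero, zero_mul]
      exact aeval_ge hs hx p
  | succ k ih =>
      rw [pow_succ]
      refine Ideal.mul_le.2 fun a ha b hb => ?_
      rw [mem_geIdeal, map_mul]
      have h2 := GeOrd.mul (mem_geIdeal.1 (ih ha)) (mem_geIdeal.1 (h1 hb))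
      have h3 : ((k + 1 : ℕ) : ℝ) * α = k * α + α := by push_cast; ring
      rwa [h3]

/-- One improvement of the order. -/
theorem improve (hs : Tendsto s (𝒰 : Filter ℕ) atTop) {x : Fin N → ℕ → Ω}
    (hx : ∀ i, GeOrd 𝒰 s (x i) 0) {q : Fin N → L} {J : Ideal (MvPolynomial (Fin N) L)} {ν : ℕ}
    (hν : 1 ≤ ν) (hJ : ptIdeal q ^ ν ≤ J ⊔ ptIdeal q ^ (ν + 1)) {δ : ℝ}
    (hδ : J ≤ geIdeal (L := L) hs hx δ)
    (h : ∀ i, GeOrd 𝒰 s (x i - algebraMap L (ℕ → Ω) (q i)) α) (i : Fin N) :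
    GeOrd 𝒰 s (x i - algebraMap L (ℕ → Ω) (q i)) (min δ ((ν + 1) * α) / ν) := by
  apply geOrd_root hν
  have h0 : X i - C (q i) ∈ ptIdeal q := Ideal.subset_span ⟨i, rfl⟩
  have h1 : (X i - C (q i)) ^ ν ∈ ptIdeal q ^ ν := Ideal.pow_mem_pow h0 ν
  have h2 : J ⊔ ptIdeal q ^ (ν + 1) ≤ geIdeal (L := L) hs hx (min δ ((ν + 1) * α)) := by
    refine sup_le ?_ ?_
    · intro p hp
      exact mem_geIdeal.2 (GeOrd.mono hs (mem_geIdeal.1 (hδ hp)) (min_le_left _ _))
    · intro p hp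
      have h3 := mem_geIdeal.1 (pow_le_geIdeal hs hx h (ν + 1) hp)
      refine mem_geIdeal.2 (GeOrd.mono hs h3 ((min_le_right _ _).trans (le_of_eq ?_)))
      push_cast
      ring
  have h3 := mem_geIdeal.1 (h2 (hJ h1))
  rwa [map_pow, map_sub, aeval_X, aeval_C] at h3

/-- The order given by the slice ideal. -/
theorem full (hs : Tendsto s (𝒰 : Filter ℕ) atTop) {x : Fin N → ℕ → Ω}
    (hx : ∀ i, GeOrd 𝒰 s (x i) 0) {q : Fin N → L} {J : Ideal (MvPolynomial (Fin N) L)} {ν : ℕ}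
    (hν : 1 ≤ ν) (hJ : ptIdeal q ^ ν ≤ J ⊔ ptIdeal q ^ (ν + 1)) {δ : ℝ} (hδ0 : 0 < δ)
    (hδ : J ≤ geIdeal (L := L) hs hx δ) {κ : ℝ} (hκ : 0 < κ)
    (h : ∀ i, GeOrd 𝒰 s (x i - algebraMap L (ℕ → Ω) (q i)) κ) (i : Fin N) :
    GeOrd 𝒰 s (x i - algebraMap L (ℕ → Ω) (q i)) (δ / ν) := by
  have hν' : (1 : ℝ) ≤ ν := by exact_mod_cast hν
  have hν0 : (0 : ℝ) < ν := by linarith
  set r : ℝ := (ν + 1) / ν with hr
  have hr1 : 1 < r := by
    rw [hr, lt_div_iff₀ hν0]
    linarith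
  have key : ∀ j : ℕ, ∀ i, GeOrd 𝒰 s (x i - algebraMap L (ℕ → Ω) (q i))
      (min (δ / ν) (r ^ j * κ)) := by
    intro j
    induction j with
    | zero =>
        intro i
        refine GeOrd.mono hs (h i) ?_
        rw [pow_zero, one_mul]
        exact min_le_right _ _
    | succ j ih =>
        intro i
        refine GeOrd.mono hs (improve hs hx hν hJ hδ ih i) ?_
        rw [← min_div_div_right hν0.le]
        refine le_min (min_le_left _ _) ?_
        have h1 : (ν + 1) * min (δ / ν) (r ^ j * κ) / ν = r * min (δ / ν) (r ^ j * κ) := by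
          rw [hr]
          ring
        rw [h1, mul_min_of_nonneg _ _ (by linarith : (0 : ℝ) ≤ r)]
        refine le_min ((min_le_left _ _).trans ?_) ((min_le_right _ _).trans (le_of_eq ?_))
        · have h2 : 0 < δ / ν := by positivity
          nlinarith
        · rw [pow_succ]
          ring
  obtain ⟨j, hj⟩ := pow_unbounded_of_one_lt (δ / ν / κ) hr1
  refine GeOrd.mono hs (key j i) (le_min le_rfl ?_)
  rw [div_lt_iff₀ hκ] at hj
  exact hj.le

end an

section local_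
variable {K L Ω : Type} [Field K] [Field L] [Algebra K L] [NormedField Ω]
  [Algebra K Ω] [Algebra L Ω] [IsScalarTower K L Ω] {N e : ℕ}
  {𝒰 : Ultrafilter ℕ} {i₀ : Fin N}
  {F : Fin N → MvPolynomial (Fin N) K} {q : Fin N → L}
  {s : ℕ → ℕ → ℝ} {z : ℕ → ℕ → Fin N → K}

/-- N1 -/
theorem exists_kappa (he : 2 ≤ e) (hF : ∀ i, (F i).totalDegree ≤ e) (hq : q i₀ = 1)
    {c : L} (hc : c ≠ 0) (hfix : ∀ i, aeval q (homogeneousComponent e (F i)) = c * q i)
    (hs : ∀ m, ∀ᶠ n in (𝒰 : Filter ℕ), s m n = e * s (m + 1) n)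
    (hz : ∀ m, ∀ᶠ n in (𝒰 : Filter ℕ), ∀ i, z m n i = eval (z (m + 1) n) (F i))
    (hlev : ∀ m, Lev Ω 𝒰 (s m) (z m) i₀)
    (hcen : ∀ m, ∃ κ : ℝ, 0 < κ ∧ ∀ i, GeOrd 𝒰 (s m) (fun n =>
      algebraMap K Ω (z m n i / z m n i₀) - algebraMap L Ω (q i)) κ)
    (hmult : ∀ n : ℕ, Module.finrank L (MvPolynomial (Fin N) L ⧸
      (sliceIdeal (fun i => homogeneousComponent e (F i)) q i₀ ⊔ ptIdeal q ^ n)) < e) :
    ∃ (κ : ℝ) (m₀ : ℕ), 0 < κ ∧ κ ≤ 1 ∧ ∀ m, m₀ ≤ m → ∀ i, GeOrd 𝒰 (s m) (fun n =>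
      algebraMap K Ω (z m n i / z m n i₀) - algebraMap L Ω (q i)) κ := by
  obtain ⟨ν, rfl⟩ : ∃ ν, e = ν + 1 := ⟨e - 1, by omega⟩
  have hν : 1 ≤ ν := by omega
  have hν1 : (1 : ℝ) ≤ ν := by exact_mod_cast hν
  have hν0 : (0 : ℝ) < ν := by linarith
  have hepos : (0 : ℝ) < ((ν + 1 : ℕ) : ℝ) := by positivity
  set J : Ideal (MvPolynomial (Fin N) L) :=
    sliceIdeal (fun i => homogeneousComponent (ν + 1) (F i)) q i₀ with hJdef
  have hJ : ptIdeal q ^ ν ≤ J ⊔ ptIdeal q ^ (ν + 1) :=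
    kappa_chain q J (Nat.lt_succ_iff.1 (hmult (ν + 1)))
  set FL : Fin N → MvPolynomial (Fin N) L := fun i => map (algebraMap K L) (F i) with hFL
  have hcomp : ∀ k i, homogeneousComponent k (FL i) =
      map (algebraMap K L) (homogeneousComponent k (F i)) := by
    intro k i
    rw [hFL]
    ext d
    rw [coeff_homogeneousComponent, coeff_map, coeff_map, coeff_homogeneousComponent]
    split_ifs <;> simp
  have hFLdeg : ∀ i, (FL i).totalDegree ≤ ν + 1 := fun i =>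
    (Finset.sup_mono (support_map_subset _ _)).trans (hF i)
  set y : ℕ → Fin N → ℕ → Ω := fun m i n =>
    algebraMap K Ω (z m n i) / algebraMap K Ω (z m n i₀) with hy
  have hyeq : ∀ m i, (fun n => algebraMap K Ω (z m n i / z m n i₀) - algebraMap L Ω (q i)) =
      y m i - algebraMap L (ℕ → Ω) (q i) := by
    intro m i
    funext n
    rw [Pi.sub_apply, Pi.algebraMap_apply, map_div₀]
  have htop : ∀ m, HasOrd 𝒰 (s m) (fun n => algebraMap K Ω (z m n i₀)) (-1) :=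
    fun m => (hlev m).top
  set t : ℕ → ℕ → Ω := fun m n => (algebraMap K Ω (z m n i₀))⁻¹ with ht
  have ht1 : ∀ m, GeOrd 𝒰 (s m) (t m) 1 := by
    intro m
    exact geOrd_inv_top (hlev m).hs (htop m)
  have htr : ∀ m, Trans 𝒰 (ν + 1) FL i₀ (t (m + 1)) (t m) (y (m + 1)) (y m) := by
    intro m
    refine trans_of (x := fun n i => algebraMap K Ω (z (m + 1) n i))
      (x' := fun n i => algebraMap K Ω (z m n i)) hFLdeg ?_ (htop (m + 1)).1 (htop m).1
    filter_upwards [hz m] with n h1 i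
    rw [h1 i, hFL, aeval_map_algebraMap]
    exact (aeval_algebraMap_apply Ω (z (m + 1) n) (F i)).symm
  have hcen' : ∀ m, ∃ κ : ℝ, 0 < κ ∧ ∀ i, GeOrd 𝒰 (s m)
      (y m i - algebraMap L (ℕ → Ω) (q i)) κ := by
    intro m
    obtain ⟨κ, h1, h2⟩ := hcen m
    refine ⟨κ, h1, fun i => ?_⟩
    rw [← hyeq]
    exact h2 i
  have hbdd : ∀ m i, GeOrd 𝒰 (s m) (y m i) 0 := by
    intro m i
    obtain ⟨κ, h1, h2⟩ := hcen' m
    exact bdd_of (hlev m).hs h1.le h2 i
  -- the slice ideal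
  have hslice : ∀ m κ, (∀ i, GeOrd 𝒰 (s m) (y m i - algebraMap L (ℕ → Ω) (q i)) κ) →
      J ≤ geIdeal (L := L) (hlev (m + 1)).hs (hbdd (m + 1)) (min (((ν + 1 : ℕ) : ℝ) * κ) 1) := by
    intro m κ hκ
    have hs1 := (hlev (m + 1)).hs
    refine Ideal.span_le.2 ?_
    rintro p (rfl | ⟨i, rfl⟩)
    · rw [SetLike.mem_coe, mem_geIdeal, map_sub, aeval_X, map_one]
      refine GeOrd.of_zero ?_
      filter_upwards [(htr m).top] with n h1
      rw [Pi.sub_apply, h1, Pi.one_apply, sub_self]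
    · rw [SetLike.mem_coe, mem_geIdeal, map_sub, map_mul, aeval_C, ← hcomp, ← hcomp]
      have h4 : GeOrd 𝒰 (s (m + 1)) (Phi (ν + 1) (t (m + 1)) (y (m + 1)) (FL i₀) *
          (y m i - algebraMap L (ℕ → Ω) (q i))) (min (((ν + 1 : ℕ) : ℝ) * κ) 1) :=
        GeOrd.mono hs1 (GeOrd.mul_left (Phi_ge hs1 (ht1 (m + 1)) (hbdd (m + 1)) (FL i₀))
          (GeOrd.scale hepos (hs m) (hκ i))) (min_le_left _ _)
      have h5 : GeOrd 𝒰 (s (m + 1)) (Phi (ν + 1) (t (m + 1)) (y (m + 1)) (FL i) -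
          algebraMap L (ℕ → Ω) (q i) * Phi (ν + 1) (t (m + 1)) (y (m + 1)) (FL i₀))
          (min (((ν + 1 : ℕ) : ℝ) * κ) 1) := by
        refine GeOrd.congr h4 ?_
        filter_upwards [(htr m).eq i] with n h6
        rw [Pi.sub_apply, h6, Pi.mul_apply, Pi.mul_apply, Pi.sub_apply]
        ring
      have hz1 : ∀ i, GeOrd 𝒰 (s (m + 1)) (Phi (ν + 1) (t (m + 1)) (y (m + 1)) (FL i) -
          aeval (y (m + 1)) (homogeneousComponent (ν + 1) (FL i)))
          (min (((ν + 1 : ℕ) : ℝ) * κ) 1) := fun i =>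
        GeOrd.mono hs1 (Phi_zero hs1 (ht1 (m + 1)) (hbdd (m + 1)) (FL i)) (min_le_right _ _)
      have h7 := GeOrd.add hs1 h5 (GeOrd.sub hs1
        (GeOrd.mul_left (GeOrd.algMap (L := L) (Ω := Ω) hs1 (q i)) (hz1 i₀)) (hz1 i))
      refine GeOrd.congr h7 (Eventually.of_forall fun n => congrFun ?_ n)
      ring
  obtain ⟨κ₀, hκ₀, hc0⟩ := hcen' 0
  set r : ℝ := ((ν + 1 : ℕ) : ℝ) / ν with hr
  have hr1 : 1 < r := by
    rw [hr, lt_div_iff₀ hν0]
    push_cast
    linarith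
  have hr0 : 0 < r := by linarith
  have hmain : ∀ m i, GeOrd 𝒰 (s m) (y m i - algebraMap L (ℕ → Ω) (q i))
      (min (1 / ν) (r ^ m * κ₀)) := by
    intro m
    induction m with
    | zero =>
        intro i
        refine GeOrd.mono (hlev 0).hs (hc0 i) ?_
        rw [pow_zero, one_mul]
        exact min_le_right _ _
    | succ m ih =>
        intro i
        have hs1 := (hlev (m + 1)).hs
        obtain ⟨κ, hκ, hc1⟩ := hcen' (m + 1)
        have h0 : 0 < min (1 / (ν : ℝ)) (r ^ m * κ₀) := lt_min (by positivity) (by positivity)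
        have h1 : 0 < min (((ν + 1 : ℕ) : ℝ) * min (1 / (ν : ℝ)) (r ^ m * κ₀)) 1 :=
          lt_min (by positivity) one_pos
        have h2 := full hs1 (hbdd (m + 1)) hν hJ h1 (hslice m _ ih) hκ hc1 i
        refine GeOrd.mono hs1 h2 ?_
        rw [← min_div_div_right hν0.le]
        refine le_min ?_ (min_le_left _ _)
        have h3 : ((ν + 1 : ℕ) : ℝ) * min (1 / (ν : ℝ)) (r ^ m * κ₀) / ν =
            r * min (1 / (ν : ℝ)) (r ^ m * κ₀) := by
          rw [hr]
          ring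
        rw [h3, mul_min_of_nonneg _ _ hr0.le]
        refine le_min ((min_le_left _ _).trans ?_) ((min_le_right _ _).trans (le_of_eq ?_))
        · have h4 : 0 < 1 / (ν : ℝ) := by positivity
          nlinarith
        · rw [pow_succ]
          ring
  obtain ⟨m₀, hm₀⟩ := pow_unbounded_of_one_lt (1 / (ν : ℝ) / κ₀) hr1
  refine ⟨1 / ν, m₀, by positivity, ?_, ?_⟩
  · rw [div_le_one hν0]
    exact hν1
  · intro m hm i
    rw [hyeq]
    refine GeOrd.mono (hlev m).hs (hmain m i) (le_min le_rfl ?_)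
    rw [div_lt_iff₀ hκ₀] at hm₀
    refine hm₀.le.trans ?_
    exact mul_le_mul_of_nonneg_right (pow_le_pow_right₀ hr1.le hm) hκ₀.le

end local_

end Pool.Agent.Helper57.RP
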