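import Pool.Agent.Helper65.RP.Defs3
import Pool.Agent.Helper36.Growth

/-!
# Dynamical Mordell-Lang for curves and regular polynomial maps: a bound for the dimension

A projective variety that meets the hyperplane at infinity in finitely many points has an affine
part of dimension at most one.
-/

set_option autoImplicit false

namespace Pool.Agent.Helper57.RP

open MvPolynomial Pool.Agent.Helper65.RP

/-- The Krull dimension does not go up in an integral extension. -/
lemma ringKrullDim_le_of_isIntegral {A R : Type*} [CommRing A] [CommRing R] [Algebra A R]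
    [Algebra.IsIntegral A R] : ringKrullDim R ≤ ringKrullDim A := by
  unfold ringKrullDim
  refine Order.krullDim_le_of_strictMono
    (fun P => PrimeSpectrum.comap (algebraMap A R) P) ?_
  intro P Q h
  have h1 : P.asIdeal < Q.asIdeal := h
  exact Ideal.IsIntegral.comap_lt_comap h1

/-- A linear form with integral coefficients that does not vanish at finitely many points. -/
lemma exists_form {N : ℕ} (B : Finset (Fin (N + 1) → ℂ)) :
    ∃ c : Fin N → ℕ, ∀ b ∈ B, b ≠ 0 → b 0 = 0 → ∑ i, (c i : ℂ) * b i.succ ≠ 0 := by
  classical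
  let P : (Fin (N + 1) → ℂ) → Polynomial ℂ := fun b =>
    ∑ i : Fin N, Polynomial.C (b i.succ) * Polynomial.X ^ (i : ℕ)
  have hP : ∀ b : Fin (N + 1) → ℂ, b ≠ 0 → b 0 = 0 → P b ≠ 0 := by
    intro b hb hb0 h
    apply hb
    funext j
    refine Fin.cases hb0 (fun i => ?_) j
    have h1 : (P b).coeff (i : ℕ) = b i.succ := by
      simp only [P, Polynomial.finsetSum_coeff, Polynomial.coeff_C_mul, Polynomial.coeff_X_pow]
      rw [Finset.sum_eq_single i]
      · simp
      · intro k _ hk
        have : (i : ℕ) ≠ (k : ℕ) := fun h => hk (Fin.ext h.symm)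
        simp [this]
      · intro hi
        exact absurd (Finset.mem_univ i) hi
    rw [h, Polynomial.coeff_zero] at h1
    rw [← h1]
    rfl
  let Q : Polynomial ℂ := ∏ b ∈ B.filter (fun b => b ≠ 0 ∧ b 0 = 0), P b
  have hQ : Q ≠ 0 := by
    apply Finset.prod_ne_zero_iff.2
    intro b hb
    have := (Finset.mem_filter.1 hb).2
    exact hP b this.1 this.2
  have h2 : ∃ t : ℕ, Q.eval (t : ℂ) ≠ 0 := by
    by_contra hcon
    push Not at hcon
    apply hQ
    apply Polynomial.eq_zero_of_infinite_isRoot
    refine Set.Infinite.mono ?_ (Set.infinite_range_of_injective (Nat.cast_injective (R := ℂ)))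
    rintro x ⟨t, rfl⟩
    exact hcon t
  obtain ⟨t, ht⟩ := h2
  refine ⟨fun i => t ^ (i : ℕ), ?_⟩
  intro b hb hb1 hb2 h3
  apply ht
  simp only [Q, Polynomial.eval_prod]
  apply Finset.prod_eq_zero (Finset.mem_filter.2 ⟨hb, hb1, hb2⟩)
  simp only [P, Polynomial.eval_finsetSum, Polynomial.eval_mul, Polynomial.eval_C,
    Polynomial.eval_pow, Polynomial.eval_X]
  rw [← h3]
  apply Finset.sum_congr rfl
  intro i _
  push_cast
  ring

/-- The Nullstellensatz: if the origin is the only zero, the variables are nilpotent. -/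
lemma exists_pow_mem {K : Type} [Field K] [Algebra K ℂ] {N : ℕ}
    (I : Ideal (MvPolynomial (Fin (N + 1)) K))
    (h : ∀ x : Fin (N + 1) → ℂ, (∀ g ∈ I, aeval x g = 0) → x = 0) :
    ∃ r : ℕ, 0 < r ∧ ∀ i, (X i : MvPolynomial (Fin (N + 1)) K) ^ r ∈ I := by
  classical
  have h1 : ∀ k : Fin (N + 1), ∃ r : ℕ, (X k : MvPolynomial (Fin (N + 1)) K) ^ r ∈ I := by
    intro k
    have h2 : (X k : MvPolynomial (Fin (N + 1)) K) ∈ I.radical := by
      rw [← MvPolynomial.vanishingIdeal_zeroLocus_eq_radical (K := ℂ)]
      rw [MvPolynomial.mem_vanishingIdeal_iff]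
      intro x hx
      rw [MvPolynomial.mem_zeroLocus_iff] at hx
      have : x = 0 := h x hx
      rw [this]
      simp
    exact h2
  choose r hr using h1
  refine ⟨1 + ∑ k, r k, by omega, ?_⟩
  intro i
  have h2 : r i ≤ 1 + ∑ k, r k :=
    le_trans (Finset.single_le_sum (f := r) (fun _ _ => Nat.zero_le _) (Finset.mem_univ i))
      (Nat.le_add_left _ _)
  exact I.pow_mem_of_pow_mem (hr i) h2

/-- The degree does not go up by dehomogenisation. -/
lemma totalDegree_deh_le {K : Type} [Field K] {N : ℕ} (p : MvPolynomial (Fin (N + 1)) K) :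
    (deh p).totalDegree ≤ p.totalDegree := by
  classical
  have h0 : deh p = ∑ s ∈ p.support, C (p.coeff s) *
      ∏ i, (Fin.cons 1 X : Fin (N + 1) → MvPolynomial (Fin N) K) i ^ s i := by
    unfold deh
    rw [aeval_def, eval₂_eq']
    rfl
  rw [h0]
  refine totalDegree_finsetSum_le ?_
  intro s hs
  refine le_trans (totalDegree_mul _ _) ?_
  rw [totalDegree_C, zero_add]
  refine le_trans (totalDegree_finsetProd _ _) ?_
  refine le_trans ?_ (le_totalDegree hs)
  rw [Finsupp.sum_fintype _ _ (fun _ => rfl)]
  apply Finset.sum_le_sum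
  intro i _
  refine le_trans (totalDegree_pow _ _) ?_
  refine Fin.cases ?_ (fun j => ?_) i
  · rw [Fin.cons_zero, totalDegree_one]
    simp
  · rw [Fin.cons_succ, totalDegree_X]
    simp

/-- The module generated by the small monomials. -/
lemma krull_le_of_rel {K : Type} [Field K] {N : ℕ} (J : Ideal (MvPolynomial (Fin N) K))
    (l : MvPolynomial (Fin N) K) (r : ℕ) (hr : 0 < r)
    (h : ∀ i : Fin N, ∃ u v : MvPolynomial (Fin N) K, u.totalDegree < r ∧ v.totalDegree < r ∧
      X i ^ r - (u + v * l) ∈ J) :
    ringKrullDim (MvPolynomial (Fin N) K ⧸ J) ≤ 1 := by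
  classical
  let φ : Polynomial K →ₐ[K] (MvPolynomial (Fin N) K ⧸ J) :=
    Polynomial.aeval (Ideal.Quotient.mk J l)
  let _ : Algebra (Polynomial K) (MvPolynomial (Fin N) K ⧸ J) := φ.toRingHom.toAlgebra
  have hmap : ∀ q : Polynomial K, algebraMap (Polynomial K) (MvPolynomial (Fin N) K ⧸ J) q = φ q :=
    fun _ => rfl
  let T : Set (Fin N →₀ ℕ) := Set.Iic (Finsupp.equivFunOnFinite.symm fun _ => r)
  have hT : T.Finite := Set.finite_Iic _
  let W : Submodule (Polynomial K) (MvPolynomial (Fin N) K ⧸ J) :=
    Submodule.span (Polynomial K) ((fun s => Ideal.Quotient.mk J (monomial s 1)) '' T)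
  have hsmul : ∀ (a : K) (w : MvPolynomial (Fin N) K), Ideal.Quotient.mk J w ∈ W →
      Ideal.Quotient.mk J (C a * w) ∈ W := by
    intro a w hw
    have h1 : Ideal.Quotient.mk J (C a * w) = (Polynomial.C a : Polynomial K) •
        Ideal.Quotient.mk J w := by
      rw [Algebra.smul_def, hmap, map_mul]
      congr 1
      simp only [φ, Polynomial.aeval_C]
      rfl
    rw [h1]
    exact W.smul_mem _ hw
  have hlmul : ∀ w : MvPolynomial (Fin N) K, Ideal.Quotient.mk J w ∈ W →
      Ideal.Quotient.mk J (w * l) ∈ W := by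
    intro w hw
    have h1 : Ideal.Quotient.mk J (w * l) = (Polynomial.X : Polynomial K) •
        Ideal.Quotient.mk J w := by
      rw [Algebra.smul_def, hmap, map_mul, mul_comm]
      congr 1
      simp only [φ, Polynomial.aeval_X]
    rw [h1]
    exact W.smul_mem _ hw
  have hmain : ∀ n : ℕ, ∀ p : MvPolynomial (Fin N) K, p.totalDegree ≤ n →
      Ideal.Quotient.mk J p ∈ W := by
    intro n
    induction n using Nat.strong_induction_on with
    | _ n ih =>
      intro p hp
      have h1 : p = ∑ s ∈ p.support, C (p.coeff s) * monomial s 1 := by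
        conv_lhs => rw [p.as_sum]
        apply Finset.sum_congr rfl
        intro s _
        rw [C_mul_monomial, mul_one]
      rw [h1, map_sum]
      apply W.sum_mem
      intro s hs
      apply hsmul
      have hsd : (s.sum fun _ e => e) ≤ n := le_trans (le_totalDegree hs) hp
      by_cases hsT : s ∈ T
      · exact Submodule.subset_span ⟨s, hsT, rfl⟩
      · have h2 : ∃ i, r < s i := by
          by_contra hcon
          push Not at hcon
          exact hsT (fun i => hcon i)
        obtain ⟨i, hi⟩ := h2
        obtain ⟨u, v, hu, hv, huv⟩ := h i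
        let s' : Fin N →₀ ℕ := s - Finsupp.single i r
        have hs' : s = s' + Finsupp.single i r := by
          refine (tsub_add_cancel_of_le ?_).symm
          rw [Finsupp.single_le_iff]
          exact hi.le
        have hdeg : (s.sum fun _ e => e) = (s'.sum fun _ e => e) + r := by
          conv_lhs => rw [hs']
          rw [Finsupp.sum_add_index' (fun _ => rfl) (fun _ _ _ => rfl),
            Finsupp.sum_single_index rfl]
        have hm : (monomial s (1 : K)) = monomial s' 1 * X i ^ r := by
          conv_lhs => rw [hs']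
          rw [X_pow_eq_monomial, monomial_mul, one_mul]
        have hm2 : Ideal.Quotient.mk J (monomial s (1 : K)) =
            Ideal.Quotient.mk J (monomial s' 1 * u) +
              Ideal.Quotient.mk J (monomial s' 1 * v * l) := by
          rw [← map_add, hm, Ideal.Quotient.eq]
          have : monomial s' 1 * X i ^ r - (monomial s' 1 * u + monomial s' 1 * v * l) =
              monomial s' 1 * (X i ^ r - (u + v * l)) := by ring
          rw [this]
          exact J.mul_mem_left _ huv
        rw [hm2]
        have hs'd : (monomial s' (1 : K)).totalDegree ≤ (s'.sum fun _ e => e) := by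
          exact totalDegree_monomial_le _ _
        apply W.add_mem
        · apply ih (n - 1) (by omega)
          refine le_trans (totalDegree_mul _ _) ?_
          omega
        · apply hlmul
          apply ih (n - 1) (by omega)
          refine le_trans (totalDegree_mul _ _) ?_
          omega
  have htop : W = ⊤ := by
    rw [eq_top_iff]
    intro x _
    obtain ⟨p, rfl⟩ := Ideal.Quotient.mk_surjective x
    exact hmain _ p le_rfl
  have hfin : Module.Finite (Polynomial K) (MvPolynomial (Fin N) K ⧸ J) := by
    refine ⟨?_⟩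
    rw [← htop]
    exact Submodule.fg_span (hT.image _)
  have hint : Algebra.IsIntegral (Polynomial K) (MvPolynomial (Fin N) K ⧸ J) :=
    Algebra.IsIntegral.of_finite _ _
  refine le_trans (ringKrullDim_le_of_isIntegral (A := Polynomial K)) ?_
  exact (IsPrincipalIdealRing.ringKrullDim_eq_one (Polynomial K)
    (Polynomial.not_isField K)).le

attribute [local instance] MvPolynomial.gradedAlgebra

/-- W2 -/
theorem krull_le {K : Type} [Field K] [Algebra K ℂ] {N : ℕ}
    (S : Set (MvPolynomial (Fin (N + 1)) K)) (hS : ∀ g ∈ S, ∃ e : ℕ, g.IsHomogeneous e)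
    (B : Finset (Fin (N + 1) → ℂ)) (hB : ∀ x : Fin (N + 1) → ℂ, x ≠ 0 → x 0 = 0 →
      (∀ g ∈ S, aeval x g = 0) → ∃ b ∈ B, ∃ c : ℂ, x = c • b) :
    ringKrullDim (MvPolynomial (Fin N) K ⧸ Ideal.span (deh '' S)) ≤ 1 := by
  classical
  obtain ⟨c, hc⟩ := exists_form B
  let L : MvPolynomial (Fin (N + 1)) K := ∑ i : Fin N, C (c i : K) * X i.succ
  have hL : L.IsHomogeneous 1 := by
    apply IsHomogeneous.sum
    intro i _
    exact (isHomogeneous_C_mul_X _ _)
  let I : Ideal (MvPolynomial (Fin (N + 1)) K) := Ideal.span (insert (X 0) (insert L S))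
  have hI : ∀ x : Fin (N + 1) → ℂ, (∀ g ∈ I, aeval x g = 0) → x = 0 := by
    intro x hx
    by_contra hne
    have h1 : x 0 = 0 := by
      have := hx (X 0) (Ideal.subset_span (Set.mem_insert _ _))
      simpa using this
    have h2 : aeval x L = 0 :=
      hx L (Ideal.subset_span (Set.mem_insert_of_mem _ (Set.mem_insert _ _)))
    have h3 : ∀ g ∈ S, aeval x g = 0 := fun g hg =>
      hx g (Ideal.subset_span (Set.mem_insert_of_mem _ (Set.mem_insert_of_mem _ hg)))
    obtain ⟨b, hb, a, hab⟩ := hB x hne h1 h3
    have ha : a ≠ 0 := by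
      rintro rfl
      exact hne (by rw [hab, zero_smul])
    have hb0 : b ≠ 0 := by
      rintro rfl
      exact hne (by rw [hab, smul_zero])
    have hb1 : b 0 = 0 := by
      rw [hab] at h1
      simpa [ha] using h1
    apply hc b hb hb0 hb1
    have h4 : aeval x L = a * ∑ i, (c i : ℂ) * b i.succ := by
      simp only [L, map_sum, map_mul, aeval_X, map_natCast]
      rw [Finset.mul_sum]
      apply Finset.sum_congr rfl
      intro i _
      rw [hab]
      simp only [Pi.smul_apply, smul_eq_mul]
      ring
    rw [h4] at h2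
    exact (mul_eq_zero.1 h2).resolve_left ha
  obtain ⟨r, hr, hrI⟩ := exists_pow_mem I hI
  have hspan : ∀ z ∈ Ideal.span S, homogeneousComponent r z ∈ Ideal.span S := by
    intro z hz
    have h1 := Ideal.homogeneous_span (homogeneousSubmodule (Fin (N + 1)) K) S (fun g hg => hS g hg)
    exact homogeneousComponent_mem_of_mem h1 hz r
  apply krull_le_of_rel (Ideal.span (deh '' S)) (deh L) r hr
  intro i
  have h1 := hrI i.succ
  obtain ⟨a, z1, hz1, h2⟩ := Ideal.mem_span_insert.1 h1
  obtain ⟨b, z, hz, h3⟩ := Ideal.mem_span_insert.1 hz1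
  obtain ⟨r', rfl⟩ : ∃ r', r = r' + 1 := ⟨r - 1, by omega⟩
  have h4 : (X i.succ : MvPolynomial (Fin (N + 1)) K) ^ (r' + 1) =
      homogeneousComponent r' a * X 0 + (homogeneousComponent r' b * L +
        homogeneousComponent (r' + 1) z) := by
    have h5 : homogeneousComponent (r' + 1) ((X i.succ : MvPolynomial (Fin (N + 1)) K) ^ (r' + 1)) =
        X i.succ ^ (r' + 1) := by
      have h6 : ((X i.succ : MvPolynomial (Fin (N + 1)) K) ^ (r' + 1)).IsHomogeneous (r' + 1) :=
        isHomogeneous_X_pow _ _
      rw [homogeneousComponent_of_mem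
        (h6 : _ ∈ homogeneousSubmodule (Fin (N + 1)) K (r' + 1)), if_pos rfl]
    rw [← h5, h2, h3, map_add, map_add,
      Helper36.homogeneousComponent_mul_of_homogeneous (isHomogeneous_X K (0 : Fin (N + 1))),
      Helper36.homogeneousComponent_mul_of_homogeneous hL]
  refine ⟨deh (homogeneousComponent r' a), deh (homogeneousComponent r' b), ?_, ?_, ?_⟩
  · refine lt_of_le_of_lt (totalDegree_deh_le _) ?_
    exact Nat.lt_succ_of_le (homogeneousComponent_isHomogeneous r' a).totalDegree_le
  · refine lt_of_le_of_lt (totalDegree_deh_le _) ?_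
    exact Nat.lt_succ_of_le (homogeneousComponent_isHomogeneous r' b).totalDegree_le
  · have h5 := congrArg (deh (K := K) (N := N)) h4
    have h6 : deh (K := K) (N := N) (X i.succ ^ (r' + 1)) = X i ^ (r' + 1) := by
      unfold deh
      rw [map_pow, aeval_X, Fin.cons_succ]
    have h7 : deh (homogeneousComponent r' a * X 0 + (homogeneousComponent r' b * L +
        homogeneousComponent (r' + 1) z)) = deh (homogeneousComponent r' a) +
          (deh (homogeneousComponent r' b) * deh L + deh (homogeneousComponent (r' + 1) z)) := by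
      unfold deh
      rw [map_add, map_add, map_mul, map_mul, aeval_X, Fin.cons_zero, mul_one]
    rw [h6, h7] at h5
    rw [h5]
    have h8 : deh (homogeneousComponent r' a) + (deh (homogeneousComponent r' b) * deh L +
        deh (homogeneousComponent (r' + 1) z)) - (deh (homogeneousComponent r' a) +
          deh (homogeneousComponent r' b) * deh L) = deh (homogeneousComponent (r' + 1) z) := by
      ring
    rw [h8]
    have h9 := hspan z hz
    have h10 : Ideal.span (deh '' S) =
        (Ideal.span S).map (aeval (Fin.cons 1 X : Fin (N + 1) → MvPolynomial (Fin N) K)).toRingHom := by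
      rw [Ideal.map_span]
      rfl
    rw [h10]
    exact Ideal.mem_map_of_mem _ h9

end Pool.Agent.Helper57.RP
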