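import Pool.Agent.Helper65.RP.Defs
import Pool.Agent.Helper36.Growth

/-!
# Backward orbits of bounded degree are periodic
-/

set_option autoImplicit false

namespace Pool.Agent.Helper57.RP

open Pool.Agent.Helper65.RP
open MvPolynomial Filter Topology Height
open Pool.Agent.Helper36 (PEq)

/-- The number of different conjugates of a tuple of algebraic elements is the degree of the field
that it generates. -/
lemma exists_conj {K Kb : Type} [Field K] [CharZero K] [Field Kb] [Algebra K Kb]
    [IsAlgClosure K Kb] {N : ℕ} (q : Fin N → Kb) :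
    ∃ σ : Fin (Module.finrank K (IntermediateField.adjoin K (Set.range q))) → (Kb ≃ₐ[K] Kb),
      ∀ i j, i ≠ j → (fun l => σ i (q l)) ≠ (fun l => σ j (q l)) := by
  classical
  have : IsAlgClosed Kb := IsAlgClosure.isAlgClosed K
  have : Algebra.IsAlgebraic K Kb := IsAlgClosure.isAlgebraic
  set E := IntermediateField.adjoin K (Set.range q) with hE
  have : FiniteDimensional K E := by
    rw [hE]
    exact IntermediateField.finiteDimensional_adjoin
      (fun x _ => (Algebra.IsAlgebraic.isAlgebraic (R := K) x).isIntegral)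
  have hcard : Fintype.card (E →ₐ[K] Kb) = Module.finrank K E := AlgHom.card K E Kb
  have e : Fin (Module.finrank K E) ≃ (E →ₐ[K] Kb) :=
    Fintype.equivOfCardEq (by rw [Fintype.card_fin, hcard])
  have : Normal K Kb := IsAlgClosure.normal K Kb
  let ψ : (E →ₐ[K] Kb) → (Kb →ₐ[K] Kb) := fun φ => AlgHom.liftNormal φ Kb
  have hψ : ∀ φ x, ψ φ (algebraMap E Kb x) = φ x := fun φ x => AlgHom.liftNormal_commutes φ Kb x
  refine ⟨fun i => AlgEquiv.ofBijective (ψ (e i)) (Algebra.IsAlgebraic.algHom_bijective _), ?_⟩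
  intro i j hij h
  apply hij
  apply e.injective
  have h1 : ∀ l, ψ (e i) (q l) = ψ (e j) (q l) := fun l => congrFun h l
  have hmem : ∀ l, q l ∈ E := fun l => IntermediateField.subset_adjoin K _ ⟨l, rfl⟩
  ext x
  obtain ⟨x, hx⟩ := x
  rw [← hψ (e i), ← hψ (e j)]
  change ψ (e i) x = ψ (e j) x
  refine IntermediateField.adjoin_induction K (s := Set.range q)
    (p := fun x _ => ψ (e i) x = ψ (e j) x) ?_ ?_ ?_ ?_ ?_ hx
  · rintro _ ⟨l, rfl⟩
    exact h1 l
  · intro x
    rw [AlgHom.commutes, AlgHom.commutes]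
  · intro x y _ _ h1 h2
    rw [map_add, map_add, h1, h2]
  · intro x _ h1
    rw [map_inv₀, map_inv₀, h1]
  · intro x y _ _ h1 h2
    rw [map_mul, map_mul, h1, h2]

/-- An increasing sequence of intermediate fields of bounded degree is contained in one of them. -/
lemma exists_top {K Kb : Type} [Field K] [Field Kb] [Algebra K Kb]
    (E : ℕ → IntermediateField K Kb) (hmono : ∀ m, E m ≤ E (m + 1))
    (hfin : ∀ m, FiniteDimensional K (E m)) (R : ℕ) (hR : ∀ m, Module.finrank K (E m) ≤ R) :
    ∃ M, ∀ m, E m ≤ E M := by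
  classical
  have hm : Monotone E := monotone_nat_of_le_succ hmono
  -- take the largest degree
  have hex : ∃ M, ∀ m, Module.finrank K (E m) ≤ Module.finrank K (E M) := by
    by_contra hcon
    push Not at hcon
    have : ∀ j : ℕ, ∃ m, j ≤ Module.finrank K (E m) := by
      intro j
      induction j with
      | zero => exact ⟨0, Nat.zero_le _⟩
      | succ j ih =>
        obtain ⟨m, hm⟩ := ih
        obtain ⟨m', hm'⟩ := hcon m
        exact ⟨m', by omega⟩
    obtain ⟨m, hm⟩ := this (R + 1)
    have := hR m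
    omega
  obtain ⟨M, hM⟩ := hex
  refine ⟨M, fun m => ?_⟩
  rcases le_total m M with h | h
  · exact hm h
  · have h1 : E M ≤ E m := hm h
    have := hfin m
    exact (IntermediateField.eq_of_le_of_finrank_le h1 (hM m)).ge

lemma coord_le {K : Type} [Field K] [NumberField K] {N : ℕ} (p : Fin N → K) (i₀ : Fin N)
    (h : p i₀ = 1) (i : Fin N) : mulHeight₁ (p i) ≤ mulHeight p := by
  have h0 : p i = p i / p i₀ := by rw [h, div_one]
  rw [h0, mulHeight₁_div_eq_mulHeight]
  have := mulHeight_comp_le ![i, i₀] p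
  refine le_trans (le_of_eq ?_) this
  congr 1
  funext l
  fin_cases l <;> rfl

/-- Over a number field a normalised backward orbit takes finitely many values. -/
lemma finite_values {K Kb : Type} [Field K] [NumberField K] [Field Kb] [Algebra K Kb]
    [IsAlgClosed Kb] {N d : ℕ} (hd : 2 ≤ d) (G : Fin N → MvPolynomial (Fin N) K)
    (hG : ∀ i, (G i).IsHomogeneous d)
    (hreg : ∀ y : Fin N → Kb, (∀ i, aeval y (G i) = 0) → y = 0) (p : ℕ → Fin N → K)
    (i₀ : ℕ → Fin N) (hp : ∀ m, p m (i₀ m) = 1)
    (hstep : ∀ m, ∃ c : K, c ≠ 0 ∧ Pool.Agent.Helper36.step G (p (m + 1)) = c • p m) :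
    (Set.range p).Finite := by
  classical
  obtain ⟨C, hC⟩ := Pool.Agent.Helper36.exists_logHeight_step_ge G hG hreg
  set B : ℝ := max (logHeight (p 0)) |C| with hB
  have hbd : ∀ m, logHeight (p m) ≤ B := by
    intro m
    induction m with
    | zero => exact le_max_left _ _
    | succ m ih =>
      obtain ⟨c, hc, hcp⟩ := hstep m
      have h1 := hC (p (m + 1))
      rw [hcp, logHeight_smul_eq_logHeight _ hc] at h1
      have hd2 : (2 : ℝ) ≤ d := by exact_mod_cast hd
      by_contra hcon
      push Not at hcon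
      have h2 : |C| ≤ B := le_max_right _ _
      have h3 : -|C| ≤ C := neg_abs_le C
      have h4 : 0 ≤ |C| := abs_nonneg C
      nlinarith
  have hfin : {x : K | mulHeight₁ x ≤ Real.exp B}.Finite :=
    NumberField.finite_setOfPred_mulHeight₁_le K _
  have hfin2 : (Set.pi Set.univ fun _ : Fin N => {x : K | mulHeight₁ x ≤ Real.exp B}).Finite :=
    Set.Finite.pi fun _ => hfin
  refine hfin2.subset ?_
  rintro _ ⟨m, rfl⟩ i _
  change mulHeight₁ (p m i) ≤ Real.exp B
  refine (coord_le (p m) (i₀ m) (hp m) i).trans ?_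
  have := hbd m
  rw [logHeight_eq_log_mulHeight] at this
  exact (Real.log_le_iff_le_exp (mulHeight_pos _)).1 this

/-- G3 -/
theorem exists_period {K Kb : Type} [Field K] [NumberField K] [Field Kb] [Algebra K Kb]
    [IsAlgClosure K Kb] {N d : ℕ} (hd : 2 ≤ d) (G : Fin N → MvPolynomial (Fin N) K)
    (hG : ∀ i, (G i).IsHomogeneous d)
    (hreg : ∀ y : Fin N → Kb, (∀ i, aeval y (G i) = 0) → y = 0) (q : ℕ → Fin N → Kb)
    (i₀ : ℕ → Fin N) (hq : ∀ m, q m (i₀ m) = 1)
    (hstep : ∀ m, ∃ c : Kb, c ≠ 0 ∧ ∀ i, aeval (q (m + 1)) (G i) = c * q m i) (R : ℕ)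
    (hR : ∀ (m r : ℕ) (σ : Fin r → (Kb ≃ₐ[K] Kb)),
      (∀ i j, i ≠ j → (fun l => σ i (q m l)) ≠ (fun l => σ j (q m l))) → r ≤ R) :
    ∃ k, 1 ≤ k ∧ ∀ m, ∃ c : Kb, c ≠ 0 ∧ ∀ i, q (m + k) i = c * q m i := by
  classical
  have : IsAlgClosed Kb := IsAlgClosure.isAlgClosed K
  have : Algebra.IsAlgebraic K Kb := IsAlgClosure.isAlgebraic
  -- the fields
  set E : ℕ → IntermediateField K Kb := fun m => IntermediateField.adjoin K (Set.range (q m))
    with hE
  have hmem : ∀ m i, q m i ∈ E m := fun m i => IntermediateField.subset_adjoin K _ ⟨i, rfl⟩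
  have hGmem : ∀ m i, aeval (q (m + 1)) (G i) ∈ E (m + 1) := by
    intro m i
    have h1 : aeval (q (m + 1)) (G i) =
        algebraMap (E (m + 1)) Kb (aeval (fun l => (⟨q (m + 1) l, hmem (m + 1) l⟩ : E (m + 1)))
          (G i)) := by
      rw [← MvPolynomial.aeval_algebraMap_apply]
      rfl
    rw [h1]
    exact SetLike.coe_mem _
  have hmono : ∀ m, E m ≤ E (m + 1) := by
    intro m
    obtain ⟨c, hc, hcq⟩ := hstep m
    have hc' : c ∈ E (m + 1) := by
      have h1 := hcq (i₀ m)
      rw [hq m, mul_one] at h1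
      rw [← h1]
      exact hGmem m _
    refine IntermediateField.adjoin_le_iff.2 ?_
    rintro _ ⟨i, rfl⟩
    have h1 : q m i = aeval (q (m + 1)) (G i) / c := by
      rw [hcq i, mul_div_cancel_left₀ _ hc]
    change q m i ∈ E (m + 1)
    rw [h1]
    exact div_mem (hGmem m i) hc'
  have hfinE : ∀ m, FiniteDimensional K (E m) := fun m =>
    IntermediateField.finiteDimensional_adjoin
      (fun x _ => (Algebra.IsAlgebraic.isAlgebraic (R := K) x).isIntegral)
  have hRE : ∀ m, Module.finrank K (E m) ≤ R := by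
    intro m
    obtain ⟨σ, hσ⟩ := exists_conj (K := K) (q m)
    exact hR m _ σ hσ
  obtain ⟨M, hM⟩ := exists_top E hmono hfinE R hRE
  -- the number field
  have : FiniteDimensional K (E M) := hfinE M
  have : CharZero (E M) := charZero_of_injective_algebraMap (algebraMap K (E M)).injective
  have : FiniteDimensional ℚ (E M) := FiniteDimensional.trans ℚ K (E M)
  have : NumberField (E M) := ⟨⟩
  let p : ℕ → Fin N → E M := fun m i => ⟨q m i, hM m (hmem m i)⟩
  have hpq : ∀ m i, algebraMap (E M) Kb (p m i) = q m i := fun m i => rfl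
  let G' : Fin N → MvPolynomial (Fin N) (E M) := fun i => map (algebraMap K (E M)) (G i)
  have hG' : ∀ i, (G' i).IsHomogeneous d := fun i => (hG i).map _
  have hreg' : ∀ y : Fin N → Kb, (∀ i, aeval y (G' i) = 0) → y = 0 := by
    intro y hy
    refine hreg y fun i => ?_
    have := hy i
    rwa [MvPolynomial.aeval_map_algebraMap] at this
  have hfin : (Set.range p).Finite := by
    refine finite_values hd G' hG' hreg' p i₀ (fun m => Subtype.ext (hq m)) ?_
    intro m
    obtain ⟨c, hc, hcq⟩ := hstep m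
    have hG1 : ∀ i, algebraMap (E M) Kb (Pool.Agent.Helper36.step G' (p (m + 1)) i) =
        aeval (q (m + 1)) (G i) := by
      intro i
      change algebraMap (E M) Kb (aeval (p (m + 1)) (map (algebraMap K (E M)) (G i))) = _
      rw [MvPolynomial.aeval_map_algebraMap, ← MvPolynomial.aeval_algebraMap_apply]
      rfl
    have hc' : c = algebraMap (E M) Kb (Pool.Agent.Helper36.step G' (p (m + 1)) (i₀ m)) := by
      rw [hG1, hcq, hq m, mul_one]
    refine ⟨Pool.Agent.Helper36.step G' (p (m + 1)) (i₀ m), ?_, ?_⟩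
    · intro h0
      rw [h0, map_zero] at hc'
      exact hc hc'
    · funext i
      apply (algebraMap (E M) Kb).injective
      rw [hG1, hcq, Pi.smul_apply, smul_eq_mul, map_mul, ← hc', hpq]
  have hfinq : (Set.range q).Finite := by
    have h1 : Set.range q = (fun x : Fin N → E M => fun i => algebraMap (E M) Kb (x i)) ''
        Set.range p := by
      rw [← Set.range_comp]
      rfl
    rw [h1]
    exact hfin.image _
  -- a value that is taken infinitely often
  obtain ⟨s, hs⟩ : ∃ s : Fin N → Kb, {m : ℕ | q m = s}.Infinite := by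
    by_contra hcon
    push Not at hcon
    have h1 : (Set.univ : Set ℕ) = ⋃ s ∈ Set.range q, {m | q m = s} := by
      ext m
      simp
    have h2 : (Set.univ : Set ℕ).Finite := by
      rw [h1]
      exact hfinq.biUnion fun s _ => hcon s
    exact Set.infinite_univ h2
  -- the projective map
  let g : (Fin N → Kb) → Fin N → Kb := fun x i => aeval x (G i)
  have hg : ∀ x y, PEq x y → PEq (g x) (g y) := by
    rintro x y ⟨c, hc, rfl⟩
    refine ⟨c ^ d, pow_ne_zero _ hc, ?_⟩
    funext i
    exact Pool.Agent.Helper36.aeval_smul_homogeneous (hG i) c x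
  have hgi : ∀ (n : ℕ) x y, PEq x y → PEq (g^[n] x) (g^[n] y) := by
    intro n
    induction n with
    | zero => intro x y h; exact h
    | succ n ih =>
      intro x y h
      rw [Function.iterate_succ_apply, Function.iterate_succ_apply]
      exact ih _ _ (hg _ _ h)
  have hback : ∀ (j m : ℕ), PEq (q m) (g^[j] (q (m + j))) := by
    intro j
    induction j with
    | zero => intro m; exact Pool.Agent.Helper36.PEq.refl
    | succ j ih =>
      intro m
      obtain ⟨c, hc, hcq⟩ := hstep (m + j)
      have h1 : PEq (q (m + j)) (g (q (m + j + 1))) := ⟨c, hc, by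
        funext i
        exact hcq i⟩
      have h2 := (ih m).trans (hgi j _ _ h1)
      rw [← Function.iterate_succ_apply] at h2
      exact h2
  obtain ⟨m₁, hm₁⟩ := hs.nonempty
  obtain ⟨m₂, hm₂, hlt⟩ := hs.exists_gt m₁
  refine ⟨m₂ - m₁, by omega, fun m => ?_⟩
  obtain ⟨n, hn, hmn⟩ := hs.exists_gt (m + (m₂ - m₁))
  set k := m₂ - m₁ with hk
  have hsk : PEq s (g^[k] s) := by
    have h1 := hback k m₁
    rw [show m₁ + k = m₂ by omega] at h1
    have e1 : q m₁ = s := hm₁
    have e2 : q m₂ = s := hm₂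
    rwa [e1, e2] at h1
  have hn' : q n = s := hn
  have h1 : PEq (q m) (g^[n - m] s) := by
    have := hback (n - m) m
    rwa [show m + (n - m) = n by omega, hn'] at this
  have h2 : PEq (q (m + k)) (g^[n - m - k] s) := by
    have := hback (n - m - k) (m + k)
    rwa [show m + k + (n - m - k) = n by omega, hn'] at this
  have h3 : PEq (g^[n - m - k] s) (g^[n - m] s) := by
    have := hgi (n - m - k) _ _ hsk
    rwa [← Function.iterate_add_apply, show n - m - k + k = n - m by omega] at this
  obtain ⟨c, hc, hcq⟩ := (h1.trans h3.symm).trans h2.symm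
  exact ⟨c, hc, fun i => congrFun hcq i⟩

end Pool.Agent.Helper57.RP
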